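import Mathlib
import Pool.Agent.H63.Bulk.Final

set_option autoImplicit false

/-! Critical bond percolation on `ℤ²` (every edge open with probability `1/2`, independently): the
probability that the origin is connected by an open path to distance `n` is of order
`n ^ (-5/48)`, the value predicted by conformal invariance and SLE(6).

The configuration `ω` gives the state of the edge from `u` to `u + (1,0)` (index `(u, true)`) and of
the edge from `u` to `u + (0,1)` (index `(u, false)`); `μ` is the law under which the edges are open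
(`ω e = true`) independently with probability `1/2`; `G ω` is the graph of the open edges. -/

namespace Pool.Agent.Results.MP_fe58d8_pr.BulkOneArm

open MeasureTheory

theorem result
    (μ : Measure ((ℤ × ℤ) × Bool → Bool))
    (hμ : μ = Measure.infinitePi (fun _ => (PMF.uniformOfFintype Bool).toMeasure))
    (G : ((ℤ × ℤ) × Bool → Bool) → SimpleGraph (ℤ × ℤ))
    (hG : ∀ ω, G ω = SimpleGraph.fromRel (fun u v =>
      (v = (u.1 + 1, u.2) ∧ ω (u, true) = true) ∨
        (v = (u.1, u.2 + 1) ∧ ω (u, false) = true))) :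
    ∃ c C : ℝ, 0 < c ∧ 0 < C ∧ ∀ n : ℕ, 1 ≤ n →
      c * (n : ℝ) ^ (-(5 / 48) : ℝ) ≤
        (μ {ω | ∃ v : ℤ × ℤ, ((n : ℤ) ≤ |v.1| ∨ (n : ℤ) ≤ |v.2|) ∧
          (G ω).Reachable (0, 0) v}).toReal ∧
      (μ {ω | ∃ v : ℤ × ℤ, ((n : ℤ) ≤ |v.1| ∨ (n : ℤ) ≤ |v.2|) ∧
          (G ω).Reachable (0, 0) v}).toReal ≤ C * (n : ℝ) ^ (-(5 / 48) : ℝ) := by
  subst hμ
  obtain rfl : G = Pool.Agent.H63.Bulk.planeGraph := funext hG
  exact Pool.Agent.H63.Bulk.one_arm_plane

end Pool.Agent.Results.MP_fe58d8_pr.BulkOneArm
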