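import Pool.Agent.H4.PS.Final2
import Pool.Agent.H26.W.Final

set_option autoImplicit false
open Set Filter Topology MeasureTheory

/-! # The scaling limit of the exploration path of critical bond percolation on `ℤ²` is chordal SLE(6)

All definitions of the statement are in `Pool/Agent/H4/PS/Defs.lean` and `Pool/Agent/H4/PS/Defs2.lean`
(`IsLargest`). -/

namespace Pool.Agent.Results.MP_fe58d8_pr.ExplorationSLE

open Pool.Agent.H4.PS

theorem result : ∀ D : Set ℂ, IsJordanDomain D → ∀ a ∈ frontier D, ∀ b ∈ frontier D, a ≠ b →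
    (∃ φ : ℂ → ℂ, IsChart D a b φ) ∧
    (∀ ε > 0, ∃ δ₀ > 0, ∀ δ : ℝ, 0 < δ → δ < δ₀ → ∃ X : DDomain, IsComponent D δ X.V X.E ∧
      (∀ V E, IsComponent D δ V E → V.ncard ≤ X.V.ncard) ∧
      dist (pt δ X.α.1) a < ε ∧ dist (pt δ X.β.1) b < ε) ∧
    ∃ μ : ProbabilityMeasure Curve, IsSLE 6 D a b μ ∧ (∀ ν, IsSLE 6 D a b ν → ν = μ) ∧
      (∀ (δ : ℕ → ℝ) (X : ℕ → DDomain), (∀ n, 0 < δ n) → Tendsto δ atTop (𝓝 0) →
        (∀ n, IsComponent D (δ n) (X n).V (X n).E) →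
        Tendsto (fun n => pt (δ n) (X n).α.1) atTop (𝓝 a) →
        Tendsto (fun n => pt (δ n) (X n).β.1) atTop (𝓝 b) →
        Tendsto (fun n => (X n).law (δ n)) atTop (𝓝 μ)) ∧
      (∀ φ : ℂ → ℂ, IsChart D a b φ → ∀ A : Approx D a b (posArc φ b) (negArc φ b),
        Tendsto (fun n => (A.X n).law (A.δ n)) atTop (𝓝 μ)) ∧
      (μH[1] (frontier D) < ⊤ →
        (∀ ε > 0, ∃ δ₀ > 0, ∀ δ : ℝ, 0 < δ → δ < δ₀ → ∃ X : DDomain, IsLargest D δ X ∧
          dist (pt δ X.α.1) a < ε ∧ dist (pt δ X.β.1) b < ε) ∧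
        ∀ (δ : ℕ → ℝ) (X : ℕ → DDomain), (∀ n, 0 < δ n) → Tendsto δ atTop (𝓝 0) →
          (∀ n, IsLargest D (δ n) (X n)) →
          Tendsto (fun n => pt (δ n) (X n).α.1) atTop (𝓝 a) →
          Tendsto (fun n => pt (δ n) (X n).β.1) atTop (𝓝 b) →
          Tendsto (fun n => (X n).law (δ n)) atTop (𝓝 μ)) :=
  final2 (Pool.Agent.H76.M7.q1sle_of_holDob
    (Pool.Agent.H53.W.holDob_of_tiDob Pool.Agent.H26.W.tiDob))

end Pool.Agent.Results.MP_fe58d8_pr.ExplorationSLE
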