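import Mathlib
import Pool.Agent.H47.NC.Closure
import Pool.Agent.H81.NC.StepIn

set_option autoImplicit false

/-! Bond percolation on `ℤ²` above the critical density `1/2`: the percolation probability
`θ(p) = P_p(the cluster of the origin is infinite)` is of order `(p - 1/2) ^ (5/36)`.

The configuration `ω` gives the state of the edge from `u` to `u + (1,0)` (index `(u, true)`) and of
the edge from `u` to `u + (0,1)` (index `(u, false)`); `μ p` is the law under which the edges are open
(`ω e = true`) independently with probability `p`; `G ω` is the graph of the open edges. -/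

namespace Pool.Agent.Results.MP_fe58d8_pr.OrderParameter

open MeasureTheory

theorem result
    (μ : ℝ → Measure ((ℤ × ℤ) × Bool → Bool))
    (hμ : ∀ p, μ p = Measure.infinitePi (fun _ => ENNReal.ofReal p • Measure.dirac true +
      ENNReal.ofReal (1 - p) • Measure.dirac false))
    (G : ((ℤ × ℤ) × Bool → Bool) → SimpleGraph (ℤ × ℤ))
    (hG : ∀ ω, G ω = SimpleGraph.fromRel (fun u v =>
      (v = (u.1 + 1, u.2) ∧ ω (u, true) = true) ∨
        (v = (u.1, u.2 + 1) ∧ ω (u, false) = true))) :
    ∃ c C : ℝ, 0 < c ∧ 0 < C ∧ ∀ p : ℝ, 1 / 2 < p → p ≤ 1 →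
      c * (p - 1 / 2) ^ (5 / 36 : ℝ) ≤
        (μ p {ω | {v | (G ω).Reachable (0, 0) v}.Infinite}).toReal ∧
      (μ p {ω | {v | (G ω).Reachable (0, 0) v}.Infinite}).toReal ≤
        C * (p - 1 / 2) ^ (5 / 36 : ℝ) := by
  obtain rfl : μ = Pool.Agent.H99.NC.planeP := funext hμ
  obtain rfl : G = Pool.Agent.H63.Bulk.planeGraph := funext hG
  exact Pool.Agent.H47.NC.theta_order Pool.Agent.H81.NC.out_step Pool.Agent.H81.NC.in_step
    (fun _ _ hc hε => Pool.Agent.H81.NC.out_CS hc hε)

end Pool.Agent.Results.MP_fe58d8_pr.OrderParameter
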